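import Pool.Agent.H715.TW.Stm

/-!
# (T1) valuations of the norm form of the cubic field of conductor 7 at the inert primes
-/

set_option autoImplicit false

namespace Pool.Agent.H113.TW

open Pool.Agent.H715.TW Polynomial
open Pool.Agent.H528R2 (Vge Inert Test)

/-- the norm form over any commutative ring -/
def nf {R : Type} [CommRing R] (a u v w : R) : R :=
  u ^ 3 + a * u ^ 2 * v + (a ^ 2 + 2 * a + 6) * u ^ 2 * w - (a + 3) * u * v ^ 2
    - (a ^ 2 + 3 * a + 3) * u * v * w + (a ^ 2 + 4 * a + 9) * u * w ^ 2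
    + v ^ 3 + a * v ^ 2 * w - (a + 3) * v * w ^ 2 + w ^ 3

theorem map_nf {R S : Type} [CommRing R] [CommRing S] (φ : R →+* S) (a u v w : R) :
    φ (nf a u v w) = nf (φ a) (φ u) (φ v) (φ w) := by
  simp only [nf, map_add, map_sub, map_mul, map_pow, map_ofNat]

theorem nf_scale {R : Type} [CommRing R] (a u v w t : R) :
    nf a (t * u) (t * v) (t * w) = t ^ 3 * nf a u v w := by
  simp only [nf]
  ring

/-- no element of `ZMod q` is a root of `X³ + X² - 2X - 1` -/
theorem no_root {q : ℕ} (hq : LInert q) (c : ZMod q) (hc : c ^ 3 + c ^ 2 - 2 * c - 1 = 0) : False := by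
  have : Fact q.Prime := ⟨hq.1⟩
  let d : ℕ → ZMod q := fun n => (dickson 1 (1 : ZMod q) n).eval c
  have d0 : d 0 = 2 := by
    simp only [d, dickson_zero]
    norm_num
  have d1 : d 1 = c := by
    simp only [d, dickson_one, eval_X]
  have dr : ∀ n, d (n + 2) = c * d (n + 1) - d n := by
    intro n
    simp only [d, dickson_add_two]
    simp
  have d2 : d 2 = c ^ 2 - 2 := by rw [dr 0, d0, d1]; ring
  have d3 : d 3 = -c ^ 2 - c + 1 := by
    rw [dr 1, d2, d1]; linear_combination hc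
  have d4 : d 4 = -c ^ 2 - c + 1 := by
    rw [dr 2, d3, d2]; linear_combination -hc
  have d5 : d 5 = c ^ 2 - 2 := by
    rw [dr 3, d4, d3]; linear_combination -hc
  have d6 : d 6 = c := by
    rw [dr 4, d5, d4]; linear_combination hc
  have d7 : d 7 = 2 := by
    rw [dr 5, d6, d5]; ring
  have d8 : d 8 = c := by
    rw [dr 6, d7, d6]; ring
  have hper : ∀ n, d (n + 7) = d n ∧ d (n + 8) = d (n + 1) := by
    intro n
    induction n with
    | zero => exact ⟨by rw [d0]; exact d7, by rw [show 0 + 1 = 1 from rfl, d1]; exact d8⟩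
    | succ n ih =>
      refine ⟨ih.2, ?_⟩
      have h1 := dr (n + 7)
      have h2 := dr n
      rw [show n + 1 + 8 = n + 7 + 2 by ring, h1, show n + 7 + 1 = n + 8 by ring, ih.2, ih.1,
        show n + 1 + 1 = n + 2 by ring, h2]
  have hmod : ∀ m r, d (7 * m + r) = d r := by
    intro m
    induction m with
    | zero => intro r; rw [Nat.mul_zero, Nat.zero_add]
    | succ m ih =>
      intro r
      rw [show 7 * (m + 1) + r = (7 * m + r) + 7 by ring, (hper _).1, ih]
  have hdq : d q = c := by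
    have h1 : d q = (X ^ q : (ZMod q)[X]).eval c := by
      simp only [d]
      rw [dickson_one_one_zmod_p]
    rw [h1, eval_pow, eval_X, ZMod.pow_card]
  have hdq' : d q = d (q % 7) := by
    conv_lhs => rw [← Nat.div_add_mod q 7]
    exact hmod _ _
  have h7 : (7 : ZMod q) ≠ 0 := by
    intro h
    have h1 : ((7 : ℕ) : ZMod q) = 0 := by exact_mod_cast h
    rw [ZMod.natCast_eq_zero_iff] at h1
    have h2 : q = 7 := (Nat.prime_dvd_prime_iff_eq hq.1 (by norm_num)).1 h1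
    rcases hq.2 with h | h | h | h <;> rw [h2] at h <;> norm_num at h
  have case1 : c = c ^ 2 - 2 → False := by
    intro h
    have h1 : (c - 2) * (c + 1) = 0 := by linear_combination -h
    rcases mul_eq_zero.1 h1 with h2 | h2
    · have h3 : c = 2 := sub_eq_zero.1 h2
      subst h3
      apply h7
      linear_combination hc
    · have h3 : c = -1 := by linear_combination h2
      subst h3
      have : (1 : ZMod q) = 0 := by linear_combination hc
      exact one_ne_zero this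
  have case2 : c = -c ^ 2 - c + 1 → False := by
    intro h
    have h1 : c * ((c - 2) * (c + 2)) = 0 := by linear_combination hc - h
    rcases mul_eq_zero.1 h1 with h2 | h2
    · subst h2
      have : (1 : ZMod q) = 0 := by linear_combination -hc
      exact one_ne_zero this
    · rcases mul_eq_zero.1 h2 with h2 | h2
      · have h3 : c = 2 := sub_eq_zero.1 h2
        subst h3
        apply h7
        linear_combination hc
      · have h3 : c = -2 := by linear_combination h2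
        subst h3
        have : (1 : ZMod q) = 0 := by linear_combination -hc
        exact one_ne_zero this
  rw [hdq'] at hdq
  rcases hq.2 with h | h | h | h
  · rw [h, d2] at hdq
    exact case1 hdq.symm
  · rw [h, d3] at hdq
    exact case2 hdq.symm
  · rw [h, d4] at hdq
    exact case2 hdq.symm
  · rw [h, d5] at hdq
    exact case1 hdq.symm

/-- the cubic polynomial -/
noncomputable def fpol (q : ℕ) : (ZMod q)[X] := X ^ 3 + X ^ 2 - 2 * X - 1

theorem fpol_eq (q : ℕ) : fpol q = X ^ 3 + C 1 * X ^ 2 + C (-2) * X + C (-1) := by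
  simp only [fpol, map_neg, map_one]
  rw [show (C (2 : ZMod q) : (ZMod q)[X]) = 2 from map_ofNat C 2]
  ring

theorem fpol_monic {q : ℕ} (hq : LInert q) : (fpol q).Monic ∧ (fpol q).natDegree = 3 := by
  have : Fact q.Prime := ⟨hq.1⟩
  have h : fpol q = C 1 * X ^ 3 + C 1 * X ^ 2 + C (-2) * X + C (-1) := by
    rw [fpol_eq]
    simp only [map_one, one_mul]
  refine ⟨?_, ?_⟩
  · rw [h, Monic, leadingCoeff_cubic one_ne_zero]
  · rw [h, natDegree_cubic one_ne_zero]

theorem fpol_irr {q : ℕ} (hq : LInert q) : Irreducible (fpol q) := by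
  have : Fact q.Prime := ⟨hq.1⟩
  obtain ⟨h1, h2⟩ := fpol_monic hq
  rw [h1.irreducible_iff_roots_eq_zero_of_degree_le_three (by rw [h2]; norm_num) (by rw [h2])]
  rw [Multiset.eq_zero_iff_forall_notMem]
  intro c hc
  have h3 := (mem_roots'.1 hc).2
  apply no_root hq c
  simpa [fpol, IsRoot.def] using h3

theorem aeval_fpol {q : ℕ} {E : Type} [CommRing E] [Algebra (ZMod q) E] (r : E) :
    aeval r (fpol q) = r ^ 3 + r ^ 2 - 2 * r - 1 := by
  simp only [fpol, map_sub, map_add, map_mul, map_pow, map_one, aeval_X, map_ofNat]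

theorem nf_factor {E : Type} [CommRing E] (u v w t : E) (ht : t ^ 3 + t ^ 2 - 2 * t - 1 = 0) :
    nf (-1) u v w = (u + v * t + w * t ^ 2) * (u + v * (t ^ 2 - 2) + w * (t ^ 2 - 2) ^ 2) *
      (u + v * (1 - t ^ 2 - t) + w * (1 - t ^ 2 - t) ^ 2) := by
  simp only [nf]
  linear_combination -(2*u^2*w*t + (-1)*u*v^2*t + 3*u*v*w*t^2 + u*v*w*t + (-3)*u*v*w + u*w^2*t^5 + u*w^2*t^4
    + (-2)*u*w^2*t^3 + (-3)*u*w^2*t^2 + 4*u*w^2*t + 2*u*w^2 + (-1)*v^3*t^2 + v^3 + v^2*w*t^2 + (-1)*v^2*w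
    + v*w^2*t^6 + v*w^2*t^5 + (-3)*v*w^2*t^4 + (-2)*v*w^2*t^3 + 4*v*w^2*t^2 + (-2)*v*w^2 + w^3*t^7 + w^3*t^6
    + (-4)*w^3*t^5 + (-3)*w^3*t^4 + 5*w^3*t^3 + w^3*t^2 + (-2)*w^3*t + w^3) * ht

/-- the norm form is anisotropic modulo the inert primes -/
theorem nf_mod {q : ℕ} (hq : LInert q) (u v w : ZMod q) (h : nf (-1) u v w = 0) : u = 0 ∧ v = 0 ∧ w = 0 := by
  have : Fact q.Prime := ⟨hq.1⟩
  have hirr : Fact (Irreducible (fpol q)) := ⟨fpol_irr hq⟩
  obtain ⟨hm, hd⟩ := fpol_monic hq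
  let E := AdjoinRoot (fpol q)
  let t : E := AdjoinRoot.root (fpol q)
  have ht : t ^ 3 + t ^ 2 - 2 * t - 1 = 0 := by
    rw [← aeval_fpol (q := q) t, aeval_def]
    exact AdjoinRoot.eval₂_root (fpol q)
  have key : ∀ r : E, r ^ 3 + r ^ 2 - 2 * r - 1 = 0 →
      algebraMap (ZMod q) E u + algebraMap (ZMod q) E v * r + algebraMap (ZMod q) E w * r ^ 2 = 0 →
      u = 0 ∧ v = 0 ∧ w = 0 := by
    intro r hr hr'
    have h1 : aeval r (fpol q) = 0 := by rw [aeval_fpol]; exact hr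
    have h2 : minpoly (ZMod q) r = fpol q := (minpoly.eq_of_irreducible_of_monic hirr.out h1 hm).symm
    have h3 : aeval r (C w * X ^ 2 + C v * X + C u) = 0 := by
      simp only [map_add, map_mul, aeval_C, aeval_X, map_pow]
      linear_combination hr'
    have h4 : fpol q ∣ C w * X ^ 2 + C v * X + C u := by
      rw [← h2]
      exact minpoly.dvd _ _ h3
    have h5 : (C w * X ^ 2 + C v * X + C u : (ZMod q)[X]) = 0 := by
      apply eq_zero_of_dvd_of_natDegree_lt h4
      rw [hd]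
      exact lt_of_le_of_lt natDegree_quadratic_le (by norm_num)
    have h6 := congrArg (fun p => coeff p 0) h5
    have h7 := congrArg (fun p => coeff p 1) h5
    have h8 := congrArg (fun p => coeff p 2) h5
    simp [coeff_X, coeff_C] at h6 h7 h8
    exact ⟨h6, h7, h8⟩
  have h1 : nf (-1) (algebraMap (ZMod q) E u) (algebraMap (ZMod q) E v) (algebraMap (ZMod q) E w) = 0 := by
    have := congrArg (algebraMap (ZMod q) E) h
    rw [map_nf, map_neg, map_one, map_zero] at this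
    exact this
  rw [nf_factor _ _ _ t ht] at h1
  rcases mul_eq_zero.1 h1 with h2 | h2
  · rcases mul_eq_zero.1 h2 with h2 | h2
    · exact key t ht h2
    · exact key (t ^ 2 - 2) (by linear_combination (t ^ 3 - t ^ 2 - 2 * t + 1) * ht) h2
  · exact key (1 - t ^ 2 - t) (by linear_combination (-t ^ 3 - 2 * t ^ 2 + t + 1) * ht) h2

theorem t1 : S_T1 := by
  intro q a u v w hq ha hN
  have : Fact q.Prime := ⟨hq.1⟩
  have hq1 : (1 : ℝ) < q := by exact_mod_cast hq.1.one_lt
  -- the norm of `a + 1`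
  have ha' : ‖((a : ℚ_[q]) + 1)‖ < 1 := by
    rcases ha with h | h
    · have : (a : ℚ_[q]) + 1 = ((a + 1 : ℚ) : ℚ_[q]) := by push_cast; ring
      rw [this, h]
      simp
    · by_cases h0 : a + 1 = 0
      · have : (a : ℚ_[q]) + 1 = ((a + 1 : ℚ) : ℚ_[q]) := by push_cast; ring
        rw [this, h0]
        simp
      · have : (a : ℚ_[q]) + 1 = ((a + 1 : ℚ) : ℚ_[q]) := by push_cast; ring
        rw [this, Padic.eq_padicNorm, padicNorm.eq_zpow_of_nonzero h0]
        push_cast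
        exact zpow_lt_one_of_neg₀ hq1 (by omega)
  have ha1 : ‖(a : ℚ_[q])‖ ≤ 1 := by
    have h1 : (a : ℚ_[q]) = ((a : ℚ_[q]) + 1) + (-1) := by ring
    rw [h1]
    refine (Padic.nonarchimedean _ _).trans ?_
    rw [norm_neg, norm_one]
    exact max_le ha'.le le_rfl
  -- an element of maximal norm
  have hmax : ∃ x : ℚ, x ≠ 0 ∧ ‖(u : ℚ_[q])‖ ≤ ‖(x : ℚ_[q])‖ ∧ ‖(v : ℚ_[q])‖ ≤ ‖(x : ℚ_[q])‖ ∧
      ‖(w : ℚ_[q])‖ ≤ ‖(x : ℚ_[q])‖ ∧ (x = u ∨ x = v ∨ x = w) := by
    have hne : ¬ (u = 0 ∧ v = 0 ∧ w = 0) := by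
      rintro ⟨rfl, rfl, rfl⟩
      apply hN
      simp [Nf]
    have hpos : ∀ x : ℚ, ‖(x : ℚ_[q])‖ ≤ 0 ↔ x = 0 := by
      intro x
      rw [norm_le_zero_iff]
      exact Rat.cast_eq_zero
    rcases le_total ‖(u : ℚ_[q])‖ ‖(v : ℚ_[q])‖ with h1 | h1
    · rcases le_total ‖(v : ℚ_[q])‖ ‖(w : ℚ_[q])‖ with h2 | h2
      · refine ⟨w, ?_, h1.trans h2, h2, le_rfl, Or.inr (Or.inr rfl)⟩
        intro h
        rw [h, Rat.cast_zero, norm_zero] at h2
        rw [(hpos v).1 h2, Rat.cast_zero, norm_zero] at h1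
        exact hne ⟨(hpos u).1 h1, (hpos v).1 h2, h⟩
      · refine ⟨v, ?_, h1, le_rfl, h2, Or.inr (Or.inl rfl)⟩
        intro h
        rw [h, Rat.cast_zero, norm_zero] at h1 h2
        exact hne ⟨(hpos u).1 h1, h, (hpos w).1 h2⟩
    · rcases le_total ‖(u : ℚ_[q])‖ ‖(w : ℚ_[q])‖ with h2 | h2
      · refine ⟨w, ?_, h2, h1.trans h2, le_rfl, Or.inr (Or.inr rfl)⟩
        intro h
        rw [h, Rat.cast_zero, norm_zero] at h2
        rw [(hpos u).1 h2, Rat.cast_zero, norm_zero] at h1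
        exact hne ⟨(hpos u).1 h2, (hpos v).1 h1, h⟩
      · refine ⟨u, ?_, le_rfl, h1, h2, Or.inl rfl⟩
        intro h
        rw [h, Rat.cast_zero, norm_zero] at h1 h2
        exact hne ⟨h, (hpos v).1 h1, (hpos w).1 h2⟩
  obtain ⟨x, hx0, hu, hv, hw, hx⟩ := hmax
  have hxn : 0 < ‖(x : ℚ_[q])‖ := norm_pos_iff.2 (by exact_mod_cast hx0)
  have hsc : ∀ y : ℚ, ‖(y : ℚ_[q])‖ ≤ ‖(x : ℚ_[q])‖ → ‖((y / x : ℚ) : ℚ_[q])‖ ≤ 1 := by
    intro y hy
    rw [Rat.cast_div, norm_div]
    exact (div_le_one hxn).2 hy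
  let a' : ℤ_[q] := ⟨(a : ℚ_[q]), ha1⟩
  let u' : ℤ_[q] := ⟨((u / x : ℚ) : ℚ_[q]), hsc u hu⟩
  let v' : ℤ_[q] := ⟨((v / x : ℚ) : ℚ_[q]), hsc v hv⟩
  let w' : ℤ_[q] := ⟨((w / x : ℚ) : ℚ_[q]), hsc w hw⟩
  have hnf : ((nf a' u' v' w' : ℤ_[q]) : ℚ_[q]) = ((Nf a (u / x) (v / x) (w / x) : ℚ) : ℚ_[q]) := by
    have h1 := map_nf (PadicInt.Coe.ringHom (p := q)) a' u' v' w'
    have h2 : (PadicInt.Coe.ringHom (p := q)) (nf a' u' v' w') = ((nf a' u' v' w' : ℤ_[q]) : ℚ_[q]) := rfl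
    rw [← h2, h1]
    have h3 := map_nf (algebraMap ℚ ℚ_[q]) a (u / x) (v / x) (w / x)
    have h4 : (algebraMap ℚ ℚ_[q]) (nf a (u / x) (v / x) (w / x)) =
      ((Nf a (u / x) (v / x) (w / x) : ℚ) : ℚ_[q]) := rfl
    rw [← h4, h3]
    rfl
  have hmod : PadicInt.toZMod (nf a' u' v' w') ≠ 0 := by
    rw [map_nf]
    have h1 : PadicInt.toZMod a' = -1 := by
      have h2 : PadicInt.toZMod (a' + 1) = 0 := by
        rw [← RingHom.mem_ker, PadicInt.ker_toZMod]
        rw [PadicInt.maximalIdeal_eq_span_p, Ideal.mem_span_singleton, ← PadicInt.norm_lt_one_iff_dvd]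
        exact ha'
      rw [map_add, map_one] at h2
      linear_combination h2
    rw [h1]
    intro h3
    obtain ⟨h4, h5, h6⟩ := nf_mod hq _ _ _ h3
    have h7 : ∀ y : ℤ_[q], (y : ℚ_[q]) = 1 → PadicInt.toZMod y ≠ 0 := by
      intro y hy
      have : y = 1 := by
        apply Subtype.ext
        rw [hy]
        rfl
      rw [this, map_one]
      exact one_ne_zero
    have h8 : ((x / x : ℚ) : ℚ_[q]) = 1 := by rw [div_self hx0]; exact Rat.cast_one
    rcases hx with rfl | rfl | rfl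
    · exact h7 u' h8 h4
    · exact h7 v' h8 h5
    · exact h7 w' h8 h6
  have hnorm : ‖((Nf a (u / x) (v / x) (w / x) : ℚ) : ℚ_[q])‖ = 1 := by
    rw [← hnf]
    have h1 : ¬ ‖(nf a' u' v' w' : ℤ_[q])‖ < 1 := by
      intro h
      apply hmod
      rw [← RingHom.mem_ker, PadicInt.ker_toZMod, PadicInt.maximalIdeal_eq_span_p,
        Ideal.mem_span_singleton, ← PadicInt.norm_lt_one_iff_dvd]
      exact h
    have h2 : ‖(nf a' u' v' w' : ℤ_[q])‖ ≤ 1 := PadicInt.norm_le_one _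
    have h3 : ‖(nf a' u' v' w' : ℤ_[q])‖ = 1 := le_antisymm h2 (not_lt.1 h1)
    exact h3
  have hne : Nf a (u / x) (v / x) (w / x) ≠ 0 := by
    intro h
    rw [h, Rat.cast_zero, norm_zero] at hnorm
    exact zero_ne_one hnorm
  have hval : padicValRat q (Nf a (u / x) (v / x) (w / x)) = 0 := by
    rw [Padic.eq_padicNorm, padicNorm.eq_zpow_of_nonzero hne] at hnorm
    push_cast at hnorm
    have := (zpow_eq_one_iff_right₀ (by positivity) hq1.ne').1 hnorm
    omega
  have hN' : Nf a u v w = x ^ 3 * Nf a (u / x) (v / x) (w / x) := by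
    have := nf_scale a (u / x) (v / x) (w / x) x
    rw [mul_div_cancel₀ _ hx0, mul_div_cancel₀ _ hx0, mul_div_cancel₀ _ hx0] at this
    exact this
  rw [hN', padicValRat.mul (pow_ne_zero 3 hx0) hne, padicValRat.pow, hval, add_zero]
  exact ⟨padicValRat q x, by push_cast; ring⟩

end Pool.Agent.H113.TW
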