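import Pool.Agent.H715.TW.Stm4

/-!
# (T4B) Shanks's simplest cubic fields and their norm form
-/

set_option autoImplicit false

namespace Pool.Agent.H113.TW

open Pool.Agent.H715.TW Polynomial Module

/-- the cubic polynomial -/
noncomputable def gpol (a : ℚ) : ℚ[X] := X ^ 3 + C (-a) * X ^ 2 + C (-(a + 3)) * X + C (-1)

theorem gpol_eq (a : ℚ) : gpol a = C 1 * X ^ 3 + C (-a) * X ^ 2 + C (-(a + 3)) * X + C (-1) := by
  simp only [gpol, map_one, one_mul]

theorem gpol_monic (a : ℚ) : (gpol a).Monic := by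
  rw [gpol_eq, Monic, leadingCoeff_cubic one_ne_zero]

theorem gpol_deg (a : ℚ) : (gpol a).natDegree = 3 := by
  rw [gpol_eq, natDegree_cubic one_ne_zero]

theorem gpol_aeval (a : ℚ) {E : Type} [CommRing E] [Algebra ℚ E] (r : E) :
    aeval r (gpol a) = r ^ 3 - algebraMap ℚ E a * r ^ 2 - (algebraMap ℚ E a + 3) * r - 1 := by
  simp only [gpol, map_neg, map_add, map_mul, map_pow, map_one, aeval_X, aeval_C, map_ofNat]
  ring

theorem gpol_irr (a : ℚ) (h : ∀ r : ℚ, r ^ 3 - a * r ^ 2 - (a + 3) * r - 1 ≠ 0) : Irreducible (gpol a) := by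
  rw [(gpol_monic a).irreducible_iff_roots_eq_zero_of_degree_le_three (by rw [gpol_deg]; norm_num)
    (by rw [gpol_deg])]
  rw [Multiset.eq_zero_iff_forall_notMem]
  intro c hc
  have h3 := (mem_roots'.1 hc).2
  apply h c
  have h4 := gpol_aeval a c
  rw [IsRoot.def] at h3
  rw [coe_aeval_eq_eval, h3] at h4
  simpa using h4.symm

/-- the norm form as a product -/
theorem nf_prod {E : Type} [CommRing E] (a u v w r₁ r₂ r₃ : E) (h1 : r₁ + r₂ + r₃ = a)
    (h2 : r₁ * r₂ + r₁ * r₃ + r₂ * r₃ = -(a + 3)) (h3 : r₁ * r₂ * r₃ = 1) :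
    (u + v * r₁ + w * r₁ ^ 2) * (u + v * r₂ + w * r₂ ^ 2) * (u + v * r₃ + w * r₃ ^ 2) =
      u ^ 3 + a * u ^ 2 * v + (a ^ 2 + 2 * a + 6) * u ^ 2 * w - (a + 3) * u * v ^ 2
    - (a ^ 2 + 3 * a + 3) * u * v * w + (a ^ 2 + 4 * a + 9) * u * w ^ 2
    + v ^ 3 + a * v ^ 2 * w - (a + 3) * v * w ^ 2 + w ^ 3 := by
  have key : (u + v * r₁ + w * r₁ ^ 2) * (u + v * r₂ + w * r₂ ^ 2) * (u + v * r₃ + w * r₃ ^ 2) =
      u ^ 3 + (r₁ + r₂ + r₃) * u ^ 2 * v +
        ((r₁ + r₂ + r₃) ^ 2 - 2 * (r₁ * r₂ + r₁ * r₃ + r₂ * r₃)) * u ^ 2 * w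
      + (r₁ * r₂ + r₁ * r₃ + r₂ * r₃) * u * v ^ 2
      + ((r₁ + r₂ + r₃) * (r₁ * r₂ + r₁ * r₃ + r₂ * r₃) - 3 * (r₁ * r₂ * r₃)) * u * v * w
      + ((r₁ * r₂ + r₁ * r₃ + r₂ * r₃) ^ 2 - 2 * (r₁ + r₂ + r₃) * (r₁ * r₂ * r₃)) * u * w ^ 2
      + (r₁ * r₂ * r₃) * v ^ 3 + (r₁ + r₂ + r₃) * (r₁ * r₂ * r₃) * v ^ 2 * w
      + (r₁ * r₂ + r₁ * r₃ + r₂ * r₃) * (r₁ * r₂ * r₃) * v * w ^ 2 + (r₁ * r₂ * r₃) ^ 2 * w ^ 3 := by
    ring
  rw [key, h1, h2, h3]
  ring

theorem t4b : S_T4B := by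
  classical
  intro a ha
  have hirr : Fact (Irreducible (gpol a)) := ⟨gpol_irr a ha⟩
  have hm := gpol_monic a
  have hd := gpol_deg a
  let E : Type := AdjoinRoot (gpol a)
  let θ : E := AdjoinRoot.root (gpol a)
  let A : E := algebraMap ℚ E a
  have hfin : FiniteDimensional ℚ E := (AdjoinRoot.powerBasis hirr.out.ne_zero).finite
  have hrank : finrank ℚ E = 3 := by
    rw [(AdjoinRoot.powerBasis hirr.out.ne_zero).finrank, AdjoinRoot.powerBasis_dim, hd]
  have hθ : θ ^ 3 - A * θ ^ 2 - (A + 3) * θ - 1 = 0 := by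
    rw [← gpol_aeval a θ, aeval_def]
    exact AdjoinRoot.eval₂_root (gpol a)
  have hchar : CharZero E := charZero_of_injective_algebraMap (algebraMap ℚ E).injective
  have hNF : NumberField E := { to_charZero := hchar, to_finiteDimensional := hfin }
  -- the minimal polynomial
  have hmin : minpoly ℚ θ = gpol a := by
    refine (minpoly.eq_of_irreducible_of_monic hirr.out ?_ hm).symm
    rw [gpol_aeval]
    exact hθ
  have hlin : ∀ p : ℚ[X], p.natDegree < 3 → aeval θ p = 0 → p = 0 := by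
    intro p hp h0
    have h1 : gpol a ∣ p := by
      rw [← hmin]
      exact minpoly.dvd _ _ h0
    apply eq_zero_of_dvd_of_natDegree_lt h1
    rw [hd]
    exact hp
  have h0 : θ ≠ 0 := by
    intro h
    rw [h] at hθ
    have : (-1 : E) = 0 := by linear_combination hθ
    exact one_ne_zero (neg_eq_zero.1 this)
  have h1 : 1 + θ ≠ 0 := by
    intro h
    have h2 : θ = -1 := by linear_combination h
    rw [h2] at hθ
    have : (1 : E) = 0 := by linear_combination hθ
    exact one_ne_zero this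
  have h2 : θ ^ 2 + θ + 1 ≠ 0 := by
    intro h
    have h3 : aeval θ (C (1 : ℚ) * X ^ 2 + C 1 * X + C 1) = 0 := by
      simp only [map_add, map_mul, aeval_C, aeval_X, map_pow, map_one]
      linear_combination h
    have h4 := hlin _ (lt_of_le_of_lt natDegree_quadratic_le (by norm_num)) h3
    have h5 := congrArg (fun p => coeff p 2) h4
    simp [coeff_X, coeff_C, coeff_one] at h5
  -- the other roots
  let r₂ : E := -1 / (1 + θ)
  let r₃ : E := -(1 + θ) / θ
  have e2 : r₂ * (1 + θ) = -1 := div_mul_cancel₀ _ h1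
  have e3 : r₃ * θ = -(1 + θ) := div_mul_cancel₀ _ h0
  have hr₂ : r₂ ^ 3 - A * r₂ ^ 2 - (A + 3) * r₂ - 1 = 0 := by
    have h3 : (r₂ ^ 3 - A * r₂ ^ 2 - (A + 3) * r₂ - 1) * (1 + θ) ^ 3 = 0 := by
      have : (r₂ ^ 3 - A * r₂ ^ 2 - (A + 3) * r₂ - 1) * (1 + θ) ^ 3 =
          (r₂ * (1 + θ)) ^ 3 - A * (r₂ * (1 + θ)) ^ 2 * (1 + θ) - (A + 3) * (r₂ * (1 + θ)) * (1 + θ) ^ 2 -
            (1 + θ) ^ 3 := by ring
      rw [this, e2]
      linear_combination -hθ
    exact (mul_eq_zero.1 h3).resolve_right (pow_ne_zero 3 h1)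
  have h12 : 1 + r₂ ≠ 0 := by
    intro h
    have : r₂ = -1 := by linear_combination h
    rw [this] at e2
    exact h0 (by linear_combination -e2)
  -- the automorphism
  let φ : E →ₐ[ℚ] E := AdjoinRoot.liftAlgHom (gpol a) (Algebra.ofId ℚ E) r₂ (by
    have := gpol_aeval a r₂
    rw [aeval_def] at this
    exact this.trans hr₂)
  have hφ : φ θ = r₂ := AdjoinRoot.liftAlgHom_root _ _ _ _
  let σ : E ≃ₐ[ℚ] E := AlgEquiv.ofBijective φ (Algebra.IsAlgebraic.algHom_bijective φ)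
  have hσ : σ θ = r₂ := hφ
  have hσ2 : σ r₂ = r₃ := by
    have h3 := congrArg σ e2
    rw [map_mul, map_add, map_one, hσ, map_neg, map_one] at h3
    have h4 : r₃ * (1 + r₂) = -1 := by
      have h5 : (r₃ * (1 + r₂)) * (θ * (1 + θ)) = -1 * (θ * (1 + θ)) := by
        have : (r₃ * (1 + r₂)) * (θ * (1 + θ)) = (r₃ * θ) * ((1 + θ) + r₂ * (1 + θ)) := by ring
        rw [this, e2, e3]
        ring
      exact mul_right_cancel₀ (mul_ne_zero h0 h1) h5
    exact mul_right_cancel₀ h12 (h3.trans h4.symm)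
  have hσ3 : σ r₃ = θ := by
    have h3 := congrArg σ e3
    rw [map_mul, hσ, map_neg, map_add, map_one, hσ] at h3
    have hr20 : r₂ ≠ 0 := by
      intro h
      rw [h, zero_mul] at e2
      exact one_ne_zero (neg_eq_zero.1 e2.symm)
    have h4 : θ * r₂ = -(1 + r₂) := by linear_combination e2
    exact mul_right_cancel₀ hr20 (h3.trans h4.symm)
  have hext : ∀ g g' : E ≃ₐ[ℚ] E, g θ = g' θ → g = g' := by
    intro g g' h
    have h3 : (g : E →ₐ[ℚ] E) = (g' : E →ₐ[ℚ] E) := AdjoinRoot.algHom_ext h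
    ext x
    exact congrArg (fun f : E →ₐ[ℚ] E => f x) h3
  have hs3 : σ ^ 3 = 1 := by
    apply hext
    change σ (σ (σ θ)) = θ
    rw [hσ, hσ2, hσ3]
  have hs1 : σ ≠ 1 := by
    intro h
    have h3 : r₂ = θ := by
      rw [← hσ, h]
      rfl
    rw [h3] at e2
    exact h2 (by linear_combination e2)
  have hord : orderOf σ = 3 := orderOf_eq_prime hs3 hs1
  have hcard : Nat.card (E ≃ₐ[ℚ] E) = 3 := by
    have h3 : Nat.card (E ≃ₐ[ℚ] E) ≤ 3 := by
      rw [← hrank, Nat.card_eq_fintype_card]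
      exact AlgEquiv.card_le
    have h4 : 3 ∣ Nat.card (E ≃ₐ[ℚ] E) := by
      rw [← hord]
      exact orderOf_dvd_natCard σ
    have h5 : 0 < Nat.card (E ≃ₐ[ℚ] E) := Nat.card_pos
    exact le_antisymm h3 (Nat.le_of_dvd h5 h4)
  have hgal : IsGalois ℚ E := IsGalois.of_card_aut_eq_finrank ℚ E (by rw [hcard, hrank])
  refine ⟨E, inferInstance, hNF, hgal, σ, θ, ?_, ?_, ?_⟩
  · intro g
    have : Fact (Nat.Prime 3) := ⟨Nat.prime_three⟩
    exact mem_zpowers_of_prime_card hcard hs1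
  · intro u v w
    apply (algebraMap ℚ E).injective
    rw [Algebra.norm_eq_prod_automorphisms]
    have huniv : (Finset.univ : Finset (E ≃ₐ[ℚ] E)) = {1, σ, σ ^ 2} := by
      symm
      apply Finset.eq_univ_of_card
      rw [← Nat.card_eq_fintype_card, hcard]
      rw [Finset.card_eq_three]
      refine ⟨1, σ, σ ^ 2, hs1.symm, ?_, ?_, rfl⟩
      · intro h
        have h3 : orderOf σ ∣ 2 := orderOf_dvd_of_pow_eq_one h.symm
        rw [hord] at h3
        norm_num at h3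
      · intro h
        apply hs1
        have h3 : σ ^ 2 = σ * σ := sq σ
        rw [h3] at h
        exact (mul_eq_left.1 h.symm)
    rw [huniv, Finset.prod_insert, Finset.prod_insert, Finset.prod_singleton]
    · have t1 : (1 : E ≃ₐ[ℚ] E) θ = θ := rfl
      have t2 : (σ ^ 2) θ = r₃ := by
        change σ (σ θ) = r₃
        rw [hσ, hσ2]
      simp only [map_add, map_mul, map_pow, AlgEquiv.commutes, t1, t2, hσ]
      rw [← mul_assoc, nf_prod A (algebraMap ℚ E u) (algebraMap ℚ E v) (algebraMap ℚ E w) θ r₂ r₃]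
      · simp only [Nf, map_add, map_sub, map_mul, map_pow, map_ofNat]
        rfl
      · have h3 : (θ + r₂ + r₃ - A) * (θ * (1 + θ)) = 0 := by
          have : (θ + r₂ + r₃ - A) * (θ * (1 + θ)) = (θ - A) * (θ * (1 + θ)) + (r₂ * (1 + θ)) * θ +
            (r₃ * θ) * (1 + θ) := by ring
          rw [this, e2, e3]
          linear_combination hθ
        have h4 := (mul_eq_zero.1 h3).resolve_right (mul_ne_zero h0 h1)
        linear_combination h4
      · have h3 : (θ * r₂ + θ * r₃ + r₂ * r₃ + (A + 3)) * (θ * (1 + θ)) = 0 := by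
          have : (θ * r₂ + θ * r₃ + r₂ * r₃ + (A + 3)) * (θ * (1 + θ)) =
            θ ^ 2 * (r₂ * (1 + θ)) + θ * (1 + θ) * (r₃ * θ) + (r₂ * (1 + θ)) * (r₃ * θ) +
              (A + 3) * (θ * (1 + θ)) := by ring
          rw [this, e2, e3]
          linear_combination -hθ
        have h4 := (mul_eq_zero.1 h3).resolve_right (mul_ne_zero h0 h1)
        linear_combination h4
      · have h3 : (θ * r₂ * r₃ - 1) * (1 + θ) = 0 := by
          have : (θ * r₂ * r₃ - 1) * (1 + θ) = (r₂ * (1 + θ)) * (r₃ * θ) - (1 + θ) := by ring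
          rw [this, e2, e3]
          ring
        have h4 := (mul_eq_zero.1 h3).resolve_right h1
        linear_combination h4
    · simp only [Finset.mem_singleton]
      intro h
      apply hs1
      have h3 : σ ^ 2 = σ * σ := sq σ
      rw [h3] at h
      exact (mul_eq_left.1 h.symm)
    · simp only [Finset.mem_insert, Finset.mem_singleton, not_or]
      refine ⟨hs1.symm, ?_⟩
      intro h
      have h3 : orderOf σ ∣ 2 := orderOf_dvd_of_pow_eq_one h.symm
      rw [hord] at h3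
      norm_num at h3
  · intro z
    obtain ⟨p, hp, hz⟩ := (AdjoinRoot.powerBasis hirr.out.ne_zero).exists_eq_aeval z
    rw [AdjoinRoot.powerBasis_dim, hd] at hp
    refine ⟨p.coeff 0, p.coeff 1, p.coeff 2, ?_⟩
    rw [hz, aeval_eq_sum_range' hp]
    simp only [Finset.sum_range_succ, Finset.sum_range_zero, AdjoinRoot.powerBasis_gen, Algebra.smul_def,
      pow_zero, pow_one, mul_one, zero_add]
    rfl

end Pool.Agent.H113.TW
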